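import Pool.Agent.H174.GP.StE
import Pool.Agent.H174.GP.StA
import Pool.Agent.H174.GP.StP

open MeasureTheory ProbabilityTheory Finset Filter Topology

namespace Pool.Agent.H17.GP174

open Pool.Agent.H174.GP

theorem meas_dep (f : ℕ → ℝ → ℤ) (I : Finset ℕ) (hf : ∀ j ∈ I, Measurable (f j)) (F : Set (ℕ → ℝ))
    (hF : ∀ ω ω' : ℕ → ℝ, (∀ j ∈ I, f j (ω j) = f j (ω' j)) → ω ∈ F → ω' ∈ F) : MeasurableSet F := by
  let G : (ℕ → ℝ) → (I → ℤ) := fun ω j => f j (ω j)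
  have hG : Measurable G := measurable_pi_iff.mpr (fun j => (hf j j.2).comp (measurable_pi_apply _))
  have e : F = G ⁻¹' (G '' F) := by
    ext ω
    constructor
    · intro h; exact ⟨ω, h, rfl⟩
    · rintro ⟨ω', h', he⟩
      exact hF ω' ω (fun j hj => congrFun he ⟨j, hj⟩) h'
  rw [e]
  exact hG (Set.to_countable _).measurableSet

theorem geo_meas (h6 : S_Tq) (σ : ℝ) (hσ : 0 < σ) (j : ℕ) (hj : 1 ≤ j) :
    Measurable (fun x : ℝ => Tq (σ * j) x) := by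
  have : 0 < σ * (j : ℝ) := mul_pos hσ (by exact_mod_cast hj)
  exact (h6 _ this).2.2.2.1

/-- dependence on the geometric values in `I` -/
def DG (σ : ℝ) (I : Finset ℕ) (F : Set (ℕ → ℝ)) : Prop :=
  ∀ ω ω' : ℕ → ℝ, (∀ j ∈ I, geo σ ω j = geo σ ω' j) → ω ∈ F → ω' ∈ F

theorem DG.meas (h6 : S_Tq) {σ : ℝ} (hσ : 0 < σ) {I : Finset ℕ} (hI : ∀ j ∈ I, 1 ≤ j) {F : Set (ℕ → ℝ)}
    (hF : DG σ I F) : MeasurableSet F :=
  meas_dep (fun j x => Tq (σ * j) x) I (fun j hj => geo_meas h6 σ hσ j (hI j hj)) F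
    (fun ω ω' h hm => hF ω ω' h hm)

theorem DG.dep {σ : ℝ} {I : Finset ℕ} {F : Set (ℕ → ℝ)} (hF : DG σ I F) : DepOn I F := by
  intro ω ω' h hm
  refine hF ω ω' (fun j hj => ?_) hm
  unfold geo
  rw [h j hj]

theorem DG.mono {σ : ℝ} {I J : Finset ℕ} {F : Set (ℕ → ℝ)} (hF : DG σ I F) (h : I ⊆ J) : DG σ J F :=
  fun ω ω' hh hm => hF ω ω' (fun j hj => hh j (h hj)) hm

theorem DG.inter {σ : ℝ} {I : Finset ℕ} {F G : Set (ℕ → ℝ)} (hF : DG σ I F) (hG : DG σ I G) :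
    DG σ I (F ∩ G) :=
  fun ω ω' hh hm => ⟨hF ω ω' hh hm.1, hG ω ω' hh hm.2⟩

theorem prD_congr (D : ℕ) (σ : ℝ) (ω ω' : ℕ → ℝ) (h : ∀ j ∈ Finset.Ioc D (3 * D), geo σ ω j = geo σ ω' j)
    (i : ℕ) (hi : i ∈ Finset.Ioc D (2 * D)) : prD D σ ω i ↔ prD D σ ω' i := by
  rw [Finset.mem_Ioc] at hi
  have h1 := h i (Finset.mem_Ioc.mpr ⟨hi.1, by omega⟩)
  have h2 := h (i + D) (Finset.mem_Ioc.mpr ⟨by omega, by omega⟩)
  unfold prD
  rw [h1, h2]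

open Classical in
theorem IP_congr (D : ℕ) (σ : ℝ) (ω ω' : ℕ → ℝ) (h : ∀ j ∈ Finset.Ioc D (3 * D), geo σ ω j = geo σ ω' j) :
    IP D σ ω = IP D σ ω' := by
  ext i
  unfold IP
  rw [Finset.mem_filter, Finset.mem_filter]
  constructor
  · rintro ⟨a, b⟩; exact ⟨a, (prD_congr D σ ω ω' h i a).mp b⟩
  · rintro ⟨a, b⟩; exact ⟨a, (prD_congr D σ ω ω' h i a).mpr b⟩

theorem X0_congr (D : ℕ) (σ : ℝ) (ω ω' : ℕ → ℝ) (h : IP D σ ω = IP D σ ω') (j : ℕ)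
    (hj : geo σ ω j = geo σ ω' j) : X0 D σ ω j = X0 D σ ω' j := by
  unfold X0
  rw [h, hj]

open Classical in
theorem IP_sub (D : ℕ) (σ : ℝ) (ω : ℕ → ℝ) : IP D σ ω ⊆ Finset.Ioc D (2 * D) := by
  unfold IP; exact Finset.filter_subset _ _

theorem X0_small (D : ℕ) (σ : ℝ) (ω : ℕ → ℝ) (j : ℕ) (hj : j < D) : X0 D σ ω j = geo σ ω j := by
  unfold X0
  rw [if_neg]
  rintro (h | h)
  · have := Finset.mem_Ioc.mp (IP_sub D σ ω h)
    omega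
  · omega

theorem SmE_dep (d : ℕ) (σ η R1 ε' : ℝ) : DG σ (Finset.Icc 2 ⌊η * d⌋₊) (SmE d σ η R1 ε') := by
  intro ω ω' h hm
  unfold SmE at hm ⊢
  simp only [Set.mem_ofPred_eq] at hm ⊢
  obtain ⟨a1, a2, a3, a4⟩ := hm
  refine ⟨fun k hk => ?_, ?_, ?_, ?_⟩
  · have e : ∑ j ∈ Finset.Icc 2 ⌊η * d⌋₊, ((min j k : ℕ) : ℝ) * (geo σ ω j : ℝ)
        = ∑ j ∈ Finset.Icc 2 ⌊η * d⌋₊, ((min j k : ℕ) : ℝ) * (geo σ ω' j : ℝ) :=
      Finset.sum_congr rfl (fun j hj => by rw [h j hj])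
    rw [← e]; exact a1 k hk
  · have e : ∑ j ∈ Finset.Icc 2 ⌊η * d⌋₊, (j : ℝ) * (geo σ ω j : ℝ)
        = ∑ j ∈ Finset.Icc 2 ⌊η * d⌋₊, (j : ℝ) * (geo σ ω' j : ℝ) :=
      Finset.sum_congr rfl (fun j hj => by rw [h j hj])
    rw [← e]; exact a2
  · have e : ∑ j ∈ Finset.Icc 2 ⌊η * d⌋₊, (j : ℝ) * (geo σ ω j : ℝ)
        = ∑ j ∈ Finset.Icc 2 ⌊η * d⌋₊, (j : ℝ) * (geo σ ω' j : ℝ) :=
      Finset.sum_congr rfl (fun j hj => by rw [h j hj])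
    rw [← e]; exact a3
  · have e : ∑ j ∈ Finset.Icc 2 ⌊η * d⌋₊, ((j : ℝ) * |(geo σ ω j : ℝ)| -
          (j : ℝ) * (2 * Real.exp (-(σ * j)) / (1 - Real.exp (-(2 * σ * j)))))
        = ∑ j ∈ Finset.Icc 2 ⌊η * d⌋₊, ((j : ℝ) * |(geo σ ω' j : ℝ)| -
          (j : ℝ) * (2 * Real.exp (-(σ * j)) / (1 - Real.exp (-(2 * σ * j))))) :=
      Finset.sum_congr rfl (fun j hj => by rw [h j hj])
    rw [← e]; exact a4

theorem MiE_dep (d : ℕ) (σ η C1 R c : ℝ) (hB : ⌊η * d⌋₊ ≤ d / 3) :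
    DG σ (Finset.Ioc ⌊η * d⌋₊ d) (MiE d σ η C1 R c) := by
  intro ω ω' h hm
  have hIP : IP (d / 3) σ ω = IP (d / 3) σ ω' := by
    refine IP_congr _ σ ω ω' (fun j hj => h j ?_)
    rw [Finset.mem_Ioc] at hj ⊢
    omega
  have hX : ∀ j ∈ Finset.Ioc ⌊η * d⌋₊ d, X0 (d / 3) σ ω j = X0 (d / 3) σ ω' j :=
    fun j hj => X0_congr _ σ ω ω' hIP j (h j hj)
  unfold MiE at hm ⊢
  simp only [Set.mem_ofPred_eq] at hm ⊢
  obtain ⟨a1, a2, a3, a4⟩ := hm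
  refine ⟨?_, fun k hk => ?_, ?_, ?_⟩
  · have e : ∑ j ∈ Finset.Ioc ⌊η * d⌋₊ d, (X0 (d / 3) σ ω j : ℝ)
        = ∑ j ∈ Finset.Ioc ⌊η * d⌋₊ d, (X0 (d / 3) σ ω' j : ℝ) :=
      Finset.sum_congr rfl (fun j hj => by rw [hX j hj])
    rw [← e]; exact a1
  · have e : ∑ j ∈ Finset.Ioc ⌊η * d⌋₊ d, ((min j k : ℕ) : ℝ) * (X0 (d / 3) σ ω j : ℝ)
        = ∑ j ∈ Finset.Ioc ⌊η * d⌋₊ d, ((min j k : ℕ) : ℝ) * (X0 (d / 3) σ ω' j : ℝ) :=
      Finset.sum_congr rfl (fun j hj => by rw [hX j hj])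
    rw [← e]; exact a2 k hk
  · have e : ∑ j ∈ Finset.Ioc ⌊η * d⌋₊ d, ((j : ℝ) * |(geo σ ω j : ℝ)| -
          (j : ℝ) * (2 * Real.exp (-(σ * j)) / (1 - Real.exp (-(2 * σ * j)))))
        = ∑ j ∈ Finset.Ioc ⌊η * d⌋₊ d, ((j : ℝ) * |(geo σ ω' j : ℝ)| -
          (j : ℝ) * (2 * Real.exp (-(σ * j)) / (1 - Real.exp (-(2 * σ * j))))) :=
      Finset.sum_congr rfl (fun j hj => by rw [h j hj])
    rw [← e]; exact a3
  · rw [← hIP]; exact a4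

/-- law of the first coordinate -/
theorem geo1_prob (h5 : S_Tqlaw) (h6 : S_Tq) (s1 s2 σ : ℝ) (d : ℕ) (r : ℤ) (hs1 : 0 < s1)
    (hd : 1 ≤ d) (hσ : 0 < σ) (h1 : s1 ≤ σ * d) (h2 : σ * d ≤ s2) (hr0 : 0 ≤ r) (hr : r ≤ d) :
    s1 / (2 * (1 + s2)) * Real.exp (-s2) / d ≤ PP.real {ω | geo σ ω 1 = r} := by
  have hd' : (1 : ℝ) ≤ d := by exact_mod_cast hd
  have e1 : PP.real {ω | geo σ ω 1 = r} = lap.real {x | Tq (σ * ((1 : ℕ) : ℝ)) x = r} := by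
    have hm : MeasurableSet {x : ℝ | Tq (σ * ((1 : ℕ) : ℝ)) x = r} :=
      (geo_meas h6 σ hσ 1 le_rfl) (MeasurableSet.singleton r)
    have hmp := measurePreserving_eval_infinitePi (fun _ : ℕ => lap) 1
    have := hmp.measureReal_preimage hm.nullMeasurableSet
    rw [← this]
    rfl
  rw [e1, h5 _ r (by simpa using hσ)]
  have hσs : σ ≤ s2 := by nlinarith
  have hσd : s1 / d ≤ σ := by
    rw [div_le_iff₀ (by linarith)]; exact h1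
  have hs2 : 0 < s2 := lt_of_lt_of_le hσ hσs
  have hexp : Real.exp (-σ) ≤ 1 / (1 + σ) := by
    rw [Real.exp_neg, ← one_div]
    apply one_div_le_one_div_of_le (by linarith)
    have := Real.add_one_le_exp σ
    linarith
  have hpos := Real.exp_pos (-σ)
  have hle1 : Real.exp (-σ) ≤ 1 := Real.exp_le_one_iff.mpr (by linarith)
  have hA : s1 / (2 * (1 + s2)) / d ≤ (1 - Real.exp (-σ)) / (1 + Real.exp (-σ)) := by
    have h3 : σ / (1 + σ) ≤ 1 - Real.exp (-σ) := by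
      have : 1 - 1 / (1 + σ) = σ / (1 + σ) := by field_simp; ring
      linarith
    have h4 : (s1 / d) / (1 + s2) ≤ σ / (1 + σ) := by
      apply div_le_div₀ hσ.le hσd (by linarith) (by linarith)
    have h5' : (1 - Real.exp (-σ)) / 2 ≤ (1 - Real.exp (-σ)) / (1 + Real.exp (-σ)) := by
      apply div_le_div_of_nonneg_left (by linarith) (by linarith) (by linarith)
    have h6' : s1 / (2 * (1 + s2)) / d = (s1 / d) / (1 + s2) / 2 := by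
      field_simp
    rw [h6']
    linarith
  have hB : Real.exp (-s2) ≤ Real.exp (-(σ * ((1 : ℕ) : ℝ) * |(r : ℝ)|)) := by
    apply Real.exp_le_exp.mpr
    have hr0' : (0 : ℝ) ≤ r := by exact_mod_cast hr0
    have hr' : (r : ℝ) ≤ d := by exact_mod_cast hr
    rw [abs_of_nonneg hr0']
    have : σ * r ≤ σ * d := mul_le_mul_of_nonneg_left hr' hσ.le
    simp only [Nat.cast_one, mul_one]
    linarith
  have hσ1 : σ * ((1 : ℕ) : ℝ) = σ := by simp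
  have hint : (((|r| : ℤ)) : ℝ) = |(r : ℝ)| := by push_cast; rfl
  have hfin : s1 / (2 * (1 + s2)) * Real.exp (-s2) / d = (s1 / (2 * (1 + s2)) / d) * Real.exp (-s2) := by ring
  rw [hfin]
  rw [hσ1] at hB ⊢
  rw [hint]
  exact mul_le_mul hA hB (Real.exp_pos _).le (div_nonneg (by linarith) (by linarith))

/-- decomposition over the values of a function of the other coordinates -/
theorem decomp {ι : Type} [DecidableEq ι] (S : Finset ι) (W : Set (ℕ → ℝ)) (idx : (ℕ → ℝ) → ι)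
    (hidx : ∀ ω ∈ W, idx ω ∈ S) (A B : ι → Set (ℕ → ℝ)) (q1 q2 : ℝ) (hq1 : 0 ≤ q1) (hq2 : 0 ≤ q2)
    (hWm : ∀ s, MeasurableSet (W ∩ {ω | idx ω = s})) (hAm : ∀ s, MeasurableSet (A s))
    (hBm : ∀ s, MeasurableSet (B s))
    (hind : ∀ s, PP.real ((W ∩ {ω | idx ω = s}) ∩ A s) = PP.real (W ∩ {ω | idx ω = s}) * PP.real (A s))
    (hA : ∀ ω ∈ W, q1 ≤ PP.real (A (idx ω))) (hB : ∀ ω ∈ W, q2 ≤ PP.real (B (idx ω))) :
    q1 * q2 * PP.real W ≤ (PP.prod PP).real {p | p.1 ∈ W ∧ p.1 ∈ A (idx p.1) ∧ p.2 ∈ B (idx p.1)} := by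
  let E : ι → Set ((ℕ → ℝ) × (ℕ → ℝ)) := fun s => ((W ∩ {ω | idx ω = s}) ∩ A s) ×ˢ B s
  have hsub : (⋃ s ∈ S, E s) ⊆ {p | p.1 ∈ W ∧ p.1 ∈ A (idx p.1) ∧ p.2 ∈ B (idx p.1)} := by
    intro p hp
    simp only [Set.mem_iUnion] at hp
    obtain ⟨s, hs, hp⟩ := hp
    obtain ⟨⟨⟨h1, h2⟩, h3⟩, h4⟩ := hp
    have h2' : idx p.1 = s := h2
    refine ⟨h1, ?_, ?_⟩
    · rw [h2']; exact h3
    · rw [h2']; exact h4
  have hd : Set.PairwiseDisjoint (↑S) E := by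
    intro a _ b _ hab
    rw [Function.onFun, Set.disjoint_left]
    rintro p ⟨⟨⟨_, h2⟩, _⟩, _⟩ ⟨⟨⟨_, h2'⟩, _⟩, _⟩
    exact hab (h2.symm.trans h2')
  have hEm : ∀ s ∈ S, MeasurableSet (E s) := fun s _ => ((hWm s).inter (hAm s)).prod (hBm s)
  have h1 : (PP.prod PP).real (⋃ s ∈ S, E s) = ∑ s ∈ S, (PP.prod PP).real (E s) :=
    measureReal_biUnion_finset hd hEm
  have h2 : ∀ s ∈ S, q1 * q2 * PP.real (W ∩ {ω | idx ω = s}) ≤ (PP.prod PP).real (E s) := by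
    intro s _
    have e : (PP.prod PP).real (E s) = PP.real (W ∩ {ω | idx ω = s}) * PP.real (A s) * PP.real (B s) := by
      rw [measureReal_prod_prod, hind s]
    rw [e]
    rcases Set.eq_empty_or_nonempty (W ∩ {ω | idx ω = s}) with h | ⟨ω, hω, hω'⟩
    · rw [h]; simp
    · have hω'' : idx ω = s := hω'
      have a1 := hA ω hω
      have a2 := hB ω hω
      rw [hω''] at a1 a2
      have a3 : q1 * q2 ≤ PP.real (A s) * PP.real (B s) := mul_le_mul a1 a2 hq2 measureReal_nonneg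
      have a4 : 0 ≤ PP.real (W ∩ {ω | idx ω = s}) := measureReal_nonneg
      nlinarith
  have h3 : PP.real W ≤ ∑ s ∈ S, PP.real (W ∩ {ω | idx ω = s}) := by
    have : W ⊆ ⋃ s ∈ S, (W ∩ {ω | idx ω = s}) := by
      intro ω hω
      simp only [Set.mem_iUnion]
      exact ⟨idx ω, hidx ω hω, hω, rfl⟩
    exact (measureReal_mono this (measure_ne_top _ _)).trans (measureReal_biUnion_finset_le _ _)
  calc q1 * q2 * PP.real W ≤ q1 * q2 * ∑ s ∈ S, PP.real (W ∩ {ω | idx ω = s}) :=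
        mul_le_mul_of_nonneg_left h3 (mul_nonneg hq1 hq2)
    _ = ∑ s ∈ S, q1 * q2 * PP.real (W ∩ {ω | idx ω = s}) := Finset.mul_sum _ _ _
    _ ≤ ∑ s ∈ S, (PP.prod PP).real (E s) := Finset.sum_le_sum h2
    _ = (PP.prod PP).real (⋃ s ∈ S, E s) := h1.symm
    _ ≤ _ := measureReal_mono hsub (measure_ne_top _ _)

/-- parity bit, number of steps, remainder -/
def bb (n : ℕ) : ℤ := (n : ℤ) % 2
def kk (D n : ℕ) (a : ℤ) : ℤ := bb n + 2 * ((a - D * bb n) / (2 * D))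
def rr (D n : ℕ) (a : ℤ) : ℤ := (a - D * bb n) % (2 * D)

theorem kr (D n : ℕ) (a : ℤ) (hD : 1 ≤ D) : 0 ≤ rr D n a ∧ rr D n a < 2 * D ∧
    rr D n a + D * kk D n a = a ∧ Even ((n : ℤ) + kk D n a) ∧
    (D : ℝ) * |((kk D n a : ℤ) : ℝ)| ≤ |(a : ℝ)| + 2 * D := by
  have hD2 : (0 : ℤ) < 2 * D := by positivity
  have h1 : 0 ≤ rr D n a := Int.emod_nonneg _ hD2.ne'
  have h2 : rr D n a < 2 * D := Int.emod_lt_of_pos _ hD2
  have h3 : rr D n a + D * kk D n a = a := by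
    have := Int.emod_add_mul_ediv (a - D * bb n) (2 * D)
    unfold rr kk
    linarith
  refine ⟨h1, h2, h3, ?_, ?_⟩
  · unfold kk bb
    rw [Int.even_iff]
    omega
  · have h3' : (D : ℝ) * ((kk D n a : ℤ) : ℝ) = a - ((rr D n a : ℤ) : ℝ) := by
      have : (((rr D n a + D * kk D n a : ℤ)) : ℝ) = (a : ℝ) := by rw [h3]
      push_cast at this
      linarith
    have h1' : (0 : ℝ) ≤ ((rr D n a : ℤ) : ℝ) := by exact_mod_cast h1
    have h2' : ((rr D n a : ℤ) : ℝ) ≤ 2 * D := by exact_mod_cast h2.le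
    have hD0 : (0 : ℝ) ≤ (D : ℝ) := by positivity
    have e : (D : ℝ) * |((kk D n a : ℤ) : ℝ)| = |(D : ℝ) * ((kk D n a : ℤ) : ℝ)| := by
      rw [abs_mul, abs_of_nonneg hD0]
    rw [e, h3']
    have := abs_sub (a : ℝ) ((rr D n a : ℤ) : ℝ)
    rw [abs_of_nonneg h1'] at this
    linarith

theorem T0_bound (d : ℕ) (σ η C1 R c R1 ε' : ℝ) (hB : ⌊η * d⌋₊ < d / 3) (hB1 : 1 ≤ ⌊η * d⌋₊)
    (ω : ℕ → ℝ) (hs : ω ∈ SmE d σ η R1 ε') (hm : ω ∈ MiE d σ η C1 R c) :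
    |((∑ j ∈ Finset.Icc 2 d, (j : ℤ) * X0 (d / 3) σ ω j : ℤ) : ℝ)|
      ≤ (Real.sqrt (ε' / 64 * Real.log d) + R) * (d : ℝ) ^ (3 / 2 : ℝ) := by
  have hd1 : 1 ≤ d := by omega
  have hu : Finset.Icc 2 d = Finset.Icc 2 ⌊η * d⌋₊ ∪ Finset.Ioc ⌊η * d⌋₊ d := by
    ext j
    simp only [Finset.mem_union, Finset.mem_Icc, Finset.mem_Ioc]
    omega
  have hdis : Disjoint (Finset.Icc 2 ⌊η * d⌋₊) (Finset.Ioc ⌊η * d⌋₊ d) := by
    rw [Finset.disjoint_left]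
    intro j h1 h2
    rw [Finset.mem_Icc] at h1
    rw [Finset.mem_Ioc] at h2
    omega
  have e0 : ((∑ j ∈ Finset.Icc 2 d, (j : ℤ) * X0 (d / 3) σ ω j : ℤ) : ℝ)
      = ∑ j ∈ Finset.Icc 2 ⌊η * d⌋₊, (j : ℝ) * (geo σ ω j : ℝ)
        + ∑ j ∈ Finset.Ioc ⌊η * d⌋₊ d, ((min j d : ℕ) : ℝ) * (X0 (d / 3) σ ω j : ℝ) := by
    rw [hu, Finset.sum_union hdis]
    push_cast
    congr 1
    · refine Finset.sum_congr rfl (fun j hj => ?_)
      rw [Finset.mem_Icc] at hj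
      rw [X0_small (d / 3) σ ω j (by omega)]
    · refine Finset.sum_congr rfl (fun j hj => ?_)
      rw [Finset.mem_Ioc] at hj
      rw [min_eq_left (by exact_mod_cast hj.2 : (j : ℝ) ≤ d)]
  have a1 := hs.2.2.1
  have a2 := hm.2.1 d (Finset.mem_Icc.mpr ⟨hd1, le_rfl⟩)
  rw [e0]
  calc _ ≤ |∑ j ∈ Finset.Icc 2 ⌊η * d⌋₊, (j : ℝ) * (geo σ ω j : ℝ)|
        + |∑ j ∈ Finset.Ioc ⌊η * d⌋₊ d, ((min j d : ℕ) : ℝ) * (X0 (d / 3) σ ω j : ℝ)| := abs_add_le _ _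
    _ ≤ _ := by rw [add_mul]; exact add_le_add a1 a2

theorem sg_meas : Measurable sg := by
  unfold sg
  exact Measurable.ite measurableSet_Ici measurable_const measurable_const

/-- one `d`, all asymptotic facts as hypotheses -/
theorem main_d (h5 : S_Tqlaw) (h6 : S_Tq) (h7 : S_indep) (c5 C c0 : ℝ) (hc5 : 0 < c5) (hC : 0 < C)
    (hbits : ∀ (I : Finset ℕ) (k : ℤ) (a : ℕ),
      1 ≤ I.card → I.card ≤ a ^ 2 → |(k : ℝ)| ≤ c0 * I.card → Even ((I.card : ℤ) + k) →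
      c5 / Real.sqrt I.card * Real.exp (-(C * (k : ℝ) ^ 2 / I.card)) ≤
        PP.real {ω | ∑ i ∈ I, sg (ω i) = k ∧ ∀ l : ℕ, min 0 k - a ≤ ∑ i ∈ I.filter (fun i => i ≤ l), sg (ω i)})
    (s1 s2 : ℝ) (hs1 : 0 < s1) (d : ℕ) (σ η C1 R c R1 ε' : ℝ) (t : ℤ) (hc : 0 < c) (hc0 : 0 < c0)
    (hε' : 0 < ε') (hσ : 0 < σ)
    (hσ1 : s1 ≤ σ * d) (hσ2 : σ * d ≤ s2) (hd9 : 9 ≤ d) (hη1 : 1 ≤ η * d) (hη4 : η < 1 / 4)
    (hR : R ≤ 7 / 8 * Real.sqrt (ε' * Real.log d)) (hL : 2 ≤ Real.sqrt (ε' * Real.log d) * Real.sqrt d)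
    (hLc : 13 * (Real.sqrt (ε' * Real.log d) * Real.sqrt d) ≤ c0 * (c * d))
    (ht : |(t : ℝ)| ≤ 2 * Real.sqrt (ε' * Real.log d) * (d : ℝ) ^ (3 / 2 : ℝ)) :
    (s1 / (2 * (1 + s2)) * Real.exp (-s2) / d) *
      (c5 / Real.sqrt d * Real.exp (-(C * 169 * ε' / c * Real.log d))) *
      (PP.real (SmE d σ η R1 ε') * PP.real (MiE d σ η C1 R c))
      ≤ (PP.prod PP).real (EQ d σ η C1 R c R1 ε' t) := by
  have hdR : (9 : ℝ) ≤ d := by exact_mod_cast hd9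
  have hd0 : (0 : ℝ) < d := by linarith
  have hlog : 0 ≤ Real.log d := Real.log_nonneg (by linarith)
  have hB1 : 1 ≤ ⌊η * d⌋₊ := Nat.le_floor (by exact_mod_cast hη1)
  have hD4 : (d : ℝ) / 4 < ((d / 3 : ℕ) : ℝ) := by
    have : d ≤ 3 * (d / 3) + 2 := by omega
    have h' : (d : ℝ) ≤ 3 * ((d / 3 : ℕ) : ℝ) + 2 := by exact_mod_cast this
    linarith
  have hB : ⌊η * d⌋₊ < d / 3 := by
    have h' : (⌊η * d⌋₊ : ℝ) ≤ η * d := Nat.floor_le (by linarith)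
    have : (⌊η * d⌋₊ : ℝ) < ((d / 3 : ℕ) : ℝ) := by nlinarith
    exact_mod_cast this
  have hD1 : 1 ≤ d / 3 := by omega
  -- independence of the small and middle parts
  have hSd := SmE_dep d σ η R1 ε'
  have hMd := MiE_dep d σ η C1 R c hB.le
  have hSm := hSd.meas h6 hσ (fun j hj => by rw [Finset.mem_Icc] at hj; omega)
  have hMm := hMd.meas h6 hσ (fun j hj => by rw [Finset.mem_Ioc] at hj; omega)
  have hW : PP.real (SmE d σ η R1 ε' ∩ MiE d σ η C1 R c)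
      = PP.real (SmE d σ η R1 ε') * PP.real (MiE d σ η C1 R c) := by
    refine h7 (Finset.Icc 2 ⌊η * d⌋₊) (Finset.Ioc ⌊η * d⌋₊ d) _ _ ?_ hSm hMm hSd.dep hMd.dep
    rw [Finset.disjoint_left]
    intro j h1 h2
    rw [Finset.mem_Icc] at h1
    rw [Finset.mem_Ioc] at h2
    omega
  have hWd : DG σ (Finset.Icc 2 d) (SmE d σ η R1 ε' ∩ MiE d σ η C1 R c) := by
    apply DG.inter
    · refine hSd.mono (fun j hj => ?_)
      rw [Finset.mem_Icc] at hj ⊢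
      omega
    · refine hMd.mono (fun j hj => ?_)
      rw [Finset.mem_Ioc] at hj
      rw [Finset.mem_Icc]
      omega
  -- index
  set L : ℝ := Real.sqrt (ε' * Real.log d) with hLdef
  have hL0 : 0 ≤ L := Real.sqrt_nonneg _
  set W : Set (ℕ → ℝ) := SmE d σ η R1 ε' ∩ MiE d σ η C1 R c with hWdef
  let M : ℤ := ⌈3 * L * (d : ℝ) ^ (3 / 2 : ℝ)⌉
  let idx : (ℕ → ℝ) → Finset ℕ × ℤ := fun ω =>
    (IP (d / 3) σ ω, t - ∑ j ∈ Finset.Icc 2 d, (j : ℤ) * X0 (d / 3) σ ω j)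
  have hd32 : 0 < (d : ℝ) ^ (3 / 2 : ℝ) := Real.rpow_pos_of_pos hd0 _
  have hT : ∀ ω ∈ W, |(((t - ∑ j ∈ Finset.Icc 2 d, (j : ℤ) * X0 (d / 3) σ ω j : ℤ)) : ℝ)|
      ≤ 3 * L * (d : ℝ) ^ (3 / 2 : ℝ) := by
    intro ω hω
    have h1 := T0_bound d σ η C1 R c R1 ε' hB hB1 ω hω.1 hω.2
    have e : Real.sqrt (ε' / 64 * Real.log d) = L / 8 := by
      rw [hLdef, show ε' / 64 * Real.log d = (ε' * Real.log d) / 8 ^ 2 by ring,
        Real.sqrt_div' _ (by positivity), Real.sqrt_sq (by norm_num)]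
    rw [e] at h1
    have h2 : (L / 8 + R) * (d : ℝ) ^ (3 / 2 : ℝ) ≤ L * (d : ℝ) ^ (3 / 2 : ℝ) :=
      mul_le_mul_of_nonneg_right (by linarith) hd32.le
    have h3 := abs_sub (t : ℝ) ((∑ j ∈ Finset.Icc 2 d, (j : ℤ) * X0 (d / 3) σ ω j : ℤ) : ℝ)
    rw [Int.cast_sub]
    linarith
  have hidx : ∀ ω ∈ W, idx ω ∈ (Finset.Ioc (d / 3) (2 * (d / 3))).powerset ×ˢ Finset.Icc (-M) M := by
    intro ω hω
    rw [Finset.mem_product]
    refine ⟨Finset.mem_powerset.mpr (IP_sub _ _ _), ?_⟩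
    have h1 := hT ω hω
    rw [abs_le] at h1
    have h2 : (3 * L * (d : ℝ) ^ (3 / 2 : ℝ)) ≤ (M : ℝ) := Int.le_ceil _
    rw [Finset.mem_Icc]
    constructor
    · have : ((-M : ℤ) : ℝ) ≤ (((t - ∑ j ∈ Finset.Icc 2 d, (j : ℤ) * X0 (d / 3) σ ω j : ℤ)) : ℝ) := by
        push_cast at h1 ⊢
        linarith
      exact_mod_cast this
    · have : (((t - ∑ j ∈ Finset.Icc 2 d, (j : ℤ) * X0 (d / 3) σ ω j : ℤ)) : ℝ) ≤ ((M : ℤ) : ℝ) := by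
        linarith
      exact_mod_cast this
  have hidxd : ∀ s, DG σ (Finset.Icc 2 d) {ω | idx ω = s} := by
    intro s ω ω' h hm
    have hIP : IP (d / 3) σ ω = IP (d / 3) σ ω' := by
      refine IP_congr _ σ ω ω' (fun j hj => h j ?_)
      rw [Finset.mem_Ioc] at hj
      rw [Finset.mem_Icc]
      omega
    have hX : ∑ j ∈ Finset.Icc 2 d, (j : ℤ) * X0 (d / 3) σ ω j
        = ∑ j ∈ Finset.Icc 2 d, (j : ℤ) * X0 (d / 3) σ ω' j :=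
      Finset.sum_congr rfl (fun j hj => by rw [X0_congr _ σ ω ω' hIP j (h j hj)])
    have e : idx ω = idx ω' := by
      simp only [idx]
      rw [hIP, hX]
    show idx ω' = s
    rw [← e]
    exact hm
  let A : Finset ℕ × ℤ → Set (ℕ → ℝ) := fun s => {ω | geo σ ω 1 = rr (d / 3) s.1.card s.2}
  let B : Finset ℕ × ℤ → Set (ℕ → ℝ) := fun s => {ω | ∑ i ∈ s.1, sg (ω i) = kk (d / 3) s.1.card s.2 ∧
    ∀ l : ℕ, min 0 (kk (d / 3) s.1.card s.2) - (⌈Real.sqrt d⌉₊ : ℤ)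
      ≤ ∑ i ∈ s.1.filter (fun i => i ≤ l), sg (ω i)}
  have hAd : ∀ s, DG σ {1} (A s) := by
    intro s ω ω' h hm
    show geo σ ω' 1 = _
    rw [← h 1 (Finset.mem_singleton_self 1)]
    exact hm
  have hAm : ∀ s, MeasurableSet (A s) := fun s => (hAd s).meas h6 hσ (fun j hj => by
    rw [Finset.mem_singleton] at hj; omega)
  have hBm : ∀ s, MeasurableSet (B s) := by
    intro s
    refine meas_dep (fun _ x => sg x) s.1 (fun _ _ => sg_meas) _ (fun ω ω' h hm => ?_)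
    refine ⟨?_, fun l => ?_⟩
    · rw [← Finset.sum_congr rfl (fun j hj => h j hj)]
      exact hm.1
    · have := hm.2 l
      rw [Finset.sum_congr rfl (fun j hj => h j (Finset.mem_filter.mp hj).1)] at this
      exact this
  have hWid : ∀ s, DG σ (Finset.Icc 2 d) (W ∩ {ω | idx ω = s}) := fun s => hWd.inter (hidxd s)
  have hWim : ∀ s, MeasurableSet (W ∩ {ω | idx ω = s}) := fun s => (hWid s).meas h6 hσ (fun j hj => by
    rw [Finset.mem_Icc] at hj; omega)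
  have hind : ∀ s, PP.real ((W ∩ {ω | idx ω = s}) ∩ A s) = PP.real (W ∩ {ω | idx ω = s}) * PP.real (A s) := by
    intro s
    refine h7 (Finset.Icc 2 d) {1} _ _ ?_ (hWim s) (hAm s) (hWid s).dep (hAd s).dep
    rw [Finset.disjoint_left]
    intro j h1 h2
    rw [Finset.mem_Icc] at h1
    rw [Finset.mem_singleton] at h2
    omega
  have hq1 : ∀ ω ∈ W, s1 / (2 * (1 + s2)) * Real.exp (-s2) / d ≤ PP.real (A (idx ω)) := by
    intro ω _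
    have hk := kr (d / 3) (idx ω).1.card (idx ω).2 hD1
    refine geo1_prob h5 h6 s1 s2 σ d _ hs1 (by omega) hσ hσ1 hσ2 hk.1 ?_
    have h1 := hk.2.1
    have h2 : (2 : ℤ) * ((d / 3 : ℕ) : ℤ) ≤ d := by omega
    linarith
  have hsq : Real.sqrt d * Real.sqrt d = d := Real.mul_self_sqrt hd0.le
  have hsqp : 0 < Real.sqrt d := Real.sqrt_pos.mpr hd0
  have h32 : (d : ℝ) ^ (3 / 2 : ℝ) = d * Real.sqrt d := by
    rw [show (3 / 2 : ℝ) = 1 + 1 / 2 by norm_num, Real.rpow_add hd0, Real.rpow_one, Real.sqrt_eq_rpow]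
  have hq2 : ∀ ω ∈ W, c5 / Real.sqrt d * Real.exp (-(C * 169 * ε' / c * Real.log d))
      ≤ PP.real (B (idx ω)) := by
    intro ω hω
    have hk := kr (d / 3) (idx ω).1.card (idx ω).2 hD1
    obtain ⟨_, _, _, hk4, hk5⟩ := hk
    have hn1 : c * d ≤ ((idx ω).1.card : ℝ) := hω.2.2.2.2
    have hcard : (idx ω).1.card ≤ d / 3 := by
      have := Finset.card_le_card (IP_sub (d / 3) σ ω)
      rw [Nat.card_Ioc] at this
      show (IP (d / 3) σ ω).card ≤ _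
      omega
    have hnd : ((idx ω).1.card : ℝ) ≤ d := by
      have : (idx ω).1.card ≤ d := by omega
      exact_mod_cast this
    have hn0 : 0 < ((idx ω).1.card : ℝ) := lt_of_lt_of_le (mul_pos hc hd0) hn1
    have hT' : |(((idx ω).2 : ℤ) : ℝ)| ≤ 3 * L * (d : ℝ) ^ (3 / 2 : ℝ) := hT ω hω
    have hkb : |((kk (d / 3) (idx ω).1.card (idx ω).2 : ℤ) : ℝ)| ≤ 13 * (L * Real.sqrt d) := by
      have hDp : 0 < ((d / 3 : ℕ) : ℝ) := by linarith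
      have h1 : ((d / 3 : ℕ) : ℝ) * |((kk (d / 3) (idx ω).1.card (idx ω).2 : ℤ) : ℝ)|
          ≤ ((d / 3 : ℕ) : ℝ) * (13 * (L * Real.sqrt d)) := by
        calc _ ≤ |(((idx ω).2 : ℤ) : ℝ)| + 2 * ((d / 3 : ℕ) : ℝ) := hk5
          _ ≤ 3 * L * (d * Real.sqrt d) + 2 * ((d / 3 : ℕ) : ℝ) := by rw [← h32]; linarith
          _ ≤ 3 * L * ((4 * ((d / 3 : ℕ) : ℝ)) * Real.sqrt d) + 2 * ((d / 3 : ℕ) : ℝ) := by
              have : L * (d * Real.sqrt d) ≤ L * ((4 * ((d / 3 : ℕ) : ℝ)) * Real.sqrt d) :=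
                mul_le_mul_of_nonneg_left (mul_le_mul_of_nonneg_right (by linarith) hsqp.le) hL0
              linarith
          _ = ((d / 3 : ℕ) : ℝ) * (12 * (L * Real.sqrt d) + 2) := by ring
          _ ≤ _ := mul_le_mul_of_nonneg_left (by linarith) hDp.le
      exact le_of_mul_le_mul_left h1 hDp
    have hk3 : |((kk (d / 3) (idx ω).1.card (idx ω).2 : ℤ) : ℝ)| ≤ c0 * (idx ω).1.card := by
      calc _ ≤ _ := hkb
        _ ≤ c0 * (c * d) := hLc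
        _ ≤ _ := mul_le_mul_of_nonneg_left hn1 hc0.le
    have hceil : (idx ω).1.card ≤ ⌈Real.sqrt d⌉₊ ^ 2 := by
      have h1 : Real.sqrt d ≤ (⌈Real.sqrt d⌉₊ : ℝ) := Nat.le_ceil _
      have h2 : ((idx ω).1.card : ℝ) ≤ (⌈Real.sqrt d⌉₊ : ℝ) ^ 2 := by nlinarith
      exact_mod_cast h2
    have hb := hbits (idx ω).1 (kk (d / 3) (idx ω).1.card (idx ω).2) ⌈Real.sqrt d⌉₊
      (by exact_mod_cast (Nat.pos_of_ne_zero (fun h => by rw [h] at hn0; simp at hn0))) hceil hk3 hk4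
    refine le_trans ?_ hb
    apply mul_le_mul _ _ (Real.exp_pos _).le (by positivity)
    · exact div_le_div_of_nonneg_left hc5.le (Real.sqrt_pos.mpr hn0) (Real.sqrt_le_sqrt hnd)
    · apply Real.exp_le_exp.mpr
      rw [neg_le_neg_iff]
      have h1 : ((kk (d / 3) (idx ω).1.card (idx ω).2 : ℤ) : ℝ) ^ 2 ≤ 169 * (ε' * Real.log d * d) := by
        have h2 : ((kk (d / 3) (idx ω).1.card (idx ω).2 : ℤ) : ℝ) ^ 2 ≤ (13 * (L * Real.sqrt d)) ^ 2 :=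
          sq_le_sq' (by have := neg_abs_le (((kk (d / 3) (idx ω).1.card (idx ω).2 : ℤ) : ℝ)); linarith)
            ((le_abs_self _).trans hkb)
        have h3 : L ^ 2 = ε' * Real.log d := Real.sq_sqrt (mul_nonneg hε'.le hlog)
        calc _ ≤ _ := h2
          _ = 169 * (L ^ 2 * (Real.sqrt d * Real.sqrt d)) := by ring
          _ = _ := by rw [h3, hsq]
      rw [div_le_iff₀ hn0]
      calc C * ((kk (d / 3) (idx ω).1.card (idx ω).2 : ℤ) : ℝ) ^ 2 ≤ C * (169 * (ε' * Real.log d * d)) :=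
            mul_le_mul_of_nonneg_left h1 hC.le
        _ = C * 169 * ε' / c * Real.log d * (c * d) := by field_simp
        _ ≤ _ := mul_le_mul_of_nonneg_left hn1 (by positivity)
  have hfin := decomp _ W idx hidx A B _ _ (by
      have : 0 < s2 := lt_of_lt_of_le (by linarith) hσ2
      positivity) (by positivity) hWim hAm hBm hind hq1 hq2
  rw [← hW]
  refine le_trans hfin (measureReal_mono ?_ (measure_ne_top _ _))
  rintro p ⟨hp1, hp2, hp3⟩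
  have hk := kr (d / 3) (idx p.1).1.card (idx p.1).2 hD1
  obtain ⟨hk1, hk2, hk3, _, _⟩ := hk
  have hp2' : geo σ p.1 1 = rr (d / 3) (idx p.1).1.card (idx p.1).2 := hp2
  obtain ⟨hp4, hp5⟩ := hp3
  refine ⟨hp1.1, hp1.2, ?_, ?_, ?_, ?_⟩
  · rw [hp2']; exact hk1
  · rw [hp2']; exact hk2
  · have e1 : ∑ i ∈ IP (d / 3) σ p.1, sg (p.2 i) = kk (d / 3) (idx p.1).1.card (idx p.1).2 := hp4
    have e2 : (idx p.1).2 = t - ∑ j ∈ Finset.Icc 2 d, (j : ℤ) * X0 (d / 3) σ p.1 j := rfl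
    rw [e1, hp2']
    linarith
  · intro l
    have e1 : ∑ i ∈ IP (d / 3) σ p.1, sg (p.2 i) = kk (d / 3) (idx p.1).1.card (idx p.1).2 := hp4
    rw [e1]
    exact hp5 l

theorem ev_all (ε' η R c c0 K e : ℝ) (hε' : 0 < ε') (hη : 0 < η) (hc : 0 < c) (hc0 : 0 < c0)
    (hK : 0 < K) (he : 0 < e) : ∀ᶠ d : ℕ in atTop, 9 ≤ d ∧ 1 ≤ η * d ∧
      R ≤ 7 / 8 * Real.sqrt (ε' * Real.log d) ∧ 2 ≤ Real.sqrt (ε' * Real.log d) * Real.sqrt d ∧
      13 * (Real.sqrt (ε' * Real.log d) * Real.sqrt d) ≤ c0 * (c * d) ∧ 1 ≤ K * (d : ℝ) ^ e := by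
  have hcast : Tendsto (fun d : ℕ => (d : ℝ)) atTop atTop := tendsto_natCast_atTop_atTop
  have hlog : Tendsto (fun d : ℕ => Real.log (d : ℝ)) atTop atTop := Real.tendsto_log_atTop.comp hcast
  have hεlog : Tendsto (fun d : ℕ => ε' * Real.log (d : ℝ)) atTop atTop := hlog.const_mul_atTop hε'
  have e1 : ∀ᶠ d : ℕ in atTop, 9 ≤ d := eventually_ge_atTop 9
  have e2 : ∀ᶠ d : ℕ in atTop, 1 ≤ η * (d : ℝ) := (hcast.const_mul_atTop hη).eventually_ge_atTop 1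
  have e3 : ∀ᶠ d : ℕ in atTop, (|R| * 2 + 2) ^ 2 ≤ ε' * Real.log (d : ℝ) := hεlog.eventually_ge_atTop _
  have hrp : Tendsto (fun d : ℕ => K * (d : ℝ) ^ e) atTop atTop :=
    ((tendsto_rpow_atTop he).comp hcast).const_mul_atTop hK
  have e5 : ∀ᶠ d : ℕ in atTop, 1 ≤ K * (d : ℝ) ^ e := hrp.eventually_ge_atTop 1
  have hδ : 0 < (c0 * c) ^ 2 / (169 * ε') := by positivity
  have e4 : ∀ᶠ d : ℕ in atTop, ‖Real.log (d : ℝ)‖ ≤ (c0 * c) ^ 2 / (169 * ε') * ‖(id (d : ℝ) : ℝ)‖ :=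
    hcast.eventually (Real.isLittleO_log_id_atTop.def hδ)
  filter_upwards [e1, e2, e3, e4, e5] with d h1 h2 h3 h4 h5
  have hd9 : (9 : ℝ) ≤ d := by exact_mod_cast h1
  have hl0 : 0 ≤ Real.log (d : ℝ) := Real.log_nonneg (by linarith)
  have hs : |R| * 2 + 2 ≤ Real.sqrt (ε' * Real.log d) := by
    apply Real.le_sqrt_of_sq_le h3
  have hs1 : 1 ≤ Real.sqrt d := by
    rw [Real.one_le_sqrt]; linarith
  have hR : R ≤ |R| := le_abs_self R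
  have hR0 : 0 ≤ |R| := abs_nonneg R
  refine ⟨h1, h2, by linarith, by nlinarith, ?_, h5⟩
  rw [Real.norm_of_nonneg hl0, id, Real.norm_of_nonneg (by linarith)] at h4
  have h6 : 169 * (ε' * Real.log d) ≤ (c0 * c) ^ 2 * d := by
    have : (c0 * c) ^ 2 / (169 * ε') * d = ((c0 * c) ^ 2 * d) / (169 * ε') := by ring
    rw [this, le_div_iff₀ (by positivity)] at h4
    linarith
  have h7 : Real.sqrt (ε' * Real.log d) * Real.sqrt d = Real.sqrt (ε' * Real.log d * d) := by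
    rw [Real.sqrt_mul (mul_nonneg hε'.le hl0)]
  rw [h7]
  have h8 : Real.sqrt (ε' * Real.log d * d) ≤ c0 * (c * d) / 13 := by
    rw [Real.sqrt_le_left (by positivity)]
    have : (c0 * (c * d) / 13) ^ 2 = ((c0 * c) ^ 2 * d) * d / 169 := by ring
    rw [this, le_div_iff₀ (by norm_num)]
    nlinarith
  linarith

theorem SmE_prob (θ ε ε' η R1 σ : ℝ) (d : ℕ) (hε : 0 < ε) (hd9 : 9 ≤ d)
    (hPL : (d : ℝ) ^ (-θ - ε / 2) ≤ PP.real {ω | (∀ k ∈ Finset.Icc 1 ⌊η * d⌋₊,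
        (k : ℝ) ≤ ∑ j ∈ Finset.Icc 2 ⌊η * d⌋₊, ((min j k : ℕ) : ℝ) * (geo σ ω j : ℝ)) ∧
      R1 * (d : ℝ) ^ (3 / 2 : ℝ) ≤ ∑ j ∈ Finset.Icc 2 ⌊η * d⌋₊, (j : ℝ) * (geo σ ω j : ℝ)})
    (ht1 : PP.real {ω | Real.sqrt (ε' / 64 * Real.log d) * (d : ℝ) ^ (3 / 2 : ℝ) ≤
      |∑ j ∈ Finset.Icc 2 ⌊η * d⌋₊, (j : ℝ) * (geo σ ω j : ℝ)|} ≤ (d : ℝ) ^ (-(θ + ε + 4)))
    (ht2 : PP.real {ω | Real.sqrt (ε' / 64 * Real.log d) * (d : ℝ) ^ (3 / 2 : ℝ) ≤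
      |∑ j ∈ Finset.Icc 2 ⌊η * d⌋₊, ((j : ℝ) * |(geo σ ω j : ℝ)| -
        (j : ℝ) * (2 * Real.exp (-(σ * j)) / (1 - Real.exp (-(2 * σ * j)))))|} ≤ (d : ℝ) ^ (-(θ + ε + 4))) :
    (d : ℝ) ^ (-θ - ε / 2) / 2 ≤ PP.real (SmE d σ η R1 ε') := by
  have hd9' : (9 : ℝ) ≤ d := by exact_mod_cast hd9
  set P : Set (ℕ → ℝ) := {ω | (∀ k ∈ Finset.Icc 1 ⌊η * d⌋₊,
        (k : ℝ) ≤ ∑ j ∈ Finset.Icc 2 ⌊η * d⌋₊, ((min j k : ℕ) : ℝ) * (geo σ ω j : ℝ)) ∧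
      R1 * (d : ℝ) ^ (3 / 2 : ℝ) ≤ ∑ j ∈ Finset.Icc 2 ⌊η * d⌋₊, (j : ℝ) * (geo σ ω j : ℝ)} with hP
  set T1 : Set (ℕ → ℝ) := {ω | Real.sqrt (ε' / 64 * Real.log d) * (d : ℝ) ^ (3 / 2 : ℝ) ≤
      |∑ j ∈ Finset.Icc 2 ⌊η * d⌋₊, (j : ℝ) * (geo σ ω j : ℝ)|} with hT1
  set T2 : Set (ℕ → ℝ) := {ω | Real.sqrt (ε' / 64 * Real.log d) * (d : ℝ) ^ (3 / 2 : ℝ) ≤
      |∑ j ∈ Finset.Icc 2 ⌊η * d⌋₊, ((j : ℝ) * |(geo σ ω j : ℝ)| -
        (j : ℝ) * (2 * Real.exp (-(σ * j)) / (1 - Real.exp (-(2 * σ * j)))))|} with hT2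
  have hsub : P ⊆ SmE d σ η R1 ε' ∪ (T1 ∪ T2) := by
    rintro ω ⟨a1, a2⟩
    by_cases b1 : ω ∈ T1
    · exact Or.inr (Or.inl b1)
    by_cases b2 : ω ∈ T2
    · exact Or.inr (Or.inr b2)
    refine Or.inl ⟨a1, a2, ?_, ?_⟩
    · exact (not_le.mp b1).le
    · exact (not_le.mp b2).le
  have h1 : PP.real P ≤ PP.real (SmE d σ η R1 ε') + (PP.real T1 + PP.real T2) := by
    refine (measureReal_mono hsub (measure_ne_top _ _)).trans ?_
    refine (measureReal_union_le _ _).trans ?_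
    have := measureReal_union_le (μ := PP) T1 T2
    linarith
  have h2 : (d : ℝ) ^ (-(θ + ε + 4)) ≤ (d : ℝ) ^ (-θ - ε / 2) / 4 := by
    have hd0 : (0 : ℝ) < d := by linarith
    have e : (d : ℝ) ^ (-(θ + ε + 4)) = (d : ℝ) ^ (-θ - ε / 2) * (d : ℝ) ^ (-(ε / 2 + 4)) := by
      rw [← Real.rpow_add hd0]; congr 1; ring
    have h3 : (d : ℝ) ^ (-(ε / 2 + 4)) ≤ (d : ℝ) ^ (-1 : ℝ) :=
      Real.rpow_le_rpow_of_exponent_le (by linarith) (by linarith)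
    have h4 : (d : ℝ) ^ (-1 : ℝ) ≤ 1 / 4 := by
      rw [Real.rpow_neg_one, inv_eq_one_div]
      exact one_div_le_one_div_of_le (by norm_num) (by linarith)
    have h5 : 0 < (d : ℝ) ^ (-θ - ε / 2) := Real.rpow_pos_of_pos hd0 _
    rw [e]
    nlinarith
  linarith

theorem gp_qxb (h1 : S_typs2) (h2 : S_mid2) (h3 : S_PLs2) (h4 : S_bits) (h5 : S_Tqlaw) (h6 : S_Tq)
    (h7 : S_indep) (_h8 : S_L3) : S_QXb := by
  intro θ s1 s2 C1 ε hθ hT hs1 hs2 hC1 hε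
  obtain ⟨c, hc, hmid⟩ := h2 s1 s2 hs1 hs2
  obtain ⟨c5, hc5, C, hC, c0, hc0, hbits⟩ := h4
  refine ⟨ε * c / (1352 * C), by positivity, fun ε' hε' hε'1 => ?_⟩
  obtain ⟨η0, hη0, hη01, d1, htyp⟩ := h1 s1 s2 (ε' / 64) (θ + ε + 4) hs1 hs2 (by positivity) (by positivity)
  have hη : 0 < min η0 (1 / 8) := lt_min hη0 (by norm_num)
  have hη4 : min η0 (1 / 8) < 1 / 4 := lt_of_le_of_lt (min_le_right _ _) (by norm_num)
  refine ⟨min η0 (1 / 8), hη, hη4, ?_⟩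
  have hηle : min η0 (1 / 8) ≤ η0 := min_le_left _ _
  generalize min η0 (1 / 8) = η at hη hη4 hηle
  obtain ⟨R, hR, c2, hc2, d2, hmid2⟩ := hmid η C1 hη hη4 hC1
  refine ⟨R, hR, c, hc, fun R1 hR1 => ?_⟩
  obtain ⟨d3, hPL⟩ := h3 θ s1 s2 (ε / 2) η R1 hθ hT hs1 hs2 (by positivity) hη (by linarith) hR1
  have hK : 0 < s1 / (2 * (1 + s2)) * Real.exp (-s2) * c5 * (c2 / 2) := by positivity
  obtain ⟨d4, hev⟩ := eventually_atTop.mp (ev_all ε' η R c c0 _ (3 * ε / 8) hε' hη hc hc0 hK (by positivity))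
  refine ⟨max (max d1 d2) (max d3 d4), fun d hd σ hσ hσ1 hσ2 t ht => ?_⟩
  have hd1 : d1 ≤ d := le_trans (le_trans (le_max_left _ _) (le_max_left _ _)) hd
  have hd2 : d2 ≤ d := le_trans (le_trans (le_max_right _ _) (le_max_left _ _)) hd
  have hd3 : d3 ≤ d := le_trans (le_trans (le_max_left _ _) (le_max_right _ _)) hd
  have hd4 : d4 ≤ d := le_trans (le_trans (le_max_right _ _) (le_max_right _ _)) hd
  obtain ⟨e1, e2, e3, e4, e5, e6⟩ := hev d hd4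
  have hdR : (9 : ℝ) ≤ d := by exact_mod_cast e1
  have hd0 : (0 : ℝ) < d := by linarith
  have hBle : (⌊η * d⌋₊ : ℝ) ≤ η0 * d :=
    (Nat.floor_le (by positivity)).trans (mul_le_mul_of_nonneg_right hηle hd0.le)
  have hty := htyp d hd1 σ hσ hσ1 hσ2 ⌊η * d⌋₊ hBle
  have hS := SmE_prob θ ε ε' η R1 σ d hε e1 (hPL d hd3 σ hσ hσ1 hσ2) hty.1 hty.2
  have hM := hmid2 d hd2 σ hσ hσ1 hσ2
  have hmain := main_d h5 h6 h7 c5 C c0 hc5 hC hbits s1 s2 hs1 d σ η C1 R c R1 ε' t hc hc0 hε' hσ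
    hσ1 hσ2 e1 e2 hη4 e3 e4 e5 ht
  refine le_trans ?_ hmain
  have hlog : 0 ≤ Real.log d := Real.log_nonneg (by linarith)
  have hx : C * 169 * ε' / c ≤ ε / 8 := by
    rw [le_div_iff₀ (by positivity)] at hε'1
    rw [div_le_iff₀ hc]
    nlinarith
  have hexp : (d : ℝ) ^ (-(ε / 8)) ≤ Real.exp (-(C * 169 * ε' / c * Real.log d)) := by
    rw [Real.rpow_def_of_pos hd0]
    apply Real.exp_le_exp.mpr
    nlinarith
  have hA : 0 < s1 / (2 * (1 + s2)) * Real.exp (-s2) := by positivity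
  have hSM : (d : ℝ) ^ (-θ - ε / 2) / 2 * c2
      ≤ PP.real (SmE d σ η R1 ε') * PP.real (MiE d σ η C1 R c) :=
    mul_le_mul hS hM hc2.le measureReal_nonneg
  have hp : 0 < (d : ℝ) ^ (-(ε / 8)) := Real.rpow_pos_of_pos hd0 _
  have hp2 : 0 < (d : ℝ) ^ (-θ - ε / 2) := Real.rpow_pos_of_pos hd0 _
  have hsq : (Real.sqrt d)⁻¹ = (d : ℝ) ^ (-(1 / 2) : ℝ) := by
    rw [Real.sqrt_eq_rpow, ← Real.rpow_neg hd0.le]
  calc (d : ℝ) ^ (-θ - 3 / 2 - ε)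
      = (d : ℝ) ^ (-θ - 3 / 2 - 5 * ε / 8) * ((d : ℝ) ^ (3 * ε / 8))⁻¹ := by
        rw [← Real.rpow_neg hd0.le, ← Real.rpow_add hd0]; congr 1; ring
    _ ≤ (d : ℝ) ^ (-θ - 3 / 2 - 5 * ε / 8) * (s1 / (2 * (1 + s2)) * Real.exp (-s2) * c5 * (c2 / 2)) := by
        apply mul_le_mul_of_nonneg_left _ (Real.rpow_nonneg hd0.le _)
        have hpp : 0 < (d : ℝ) ^ (3 * ε / 8) := Real.rpow_pos_of_pos hd0 _
        rw [inv_le_iff_one_le_mul₀ hpp]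
        exact e6
    _ = (s1 / (2 * (1 + s2)) * Real.exp (-s2) / d) * (c5 / Real.sqrt d * (d : ℝ) ^ (-(ε / 8))) *
          ((d : ℝ) ^ (-θ - ε / 2) / 2 * c2) := by
        have e : (d : ℝ) ^ (-θ - 3 / 2 - 5 * ε / 8)
            = (d : ℝ) ^ (-1 : ℝ) * (d : ℝ) ^ (-(1 / 2) : ℝ) * (d : ℝ) ^ (-(ε / 8)) * (d : ℝ) ^ (-θ - ε / 2) := by
          rw [← Real.rpow_add hd0, ← Real.rpow_add hd0, ← Real.rpow_add hd0]; congr 1; ring
        rw [e, ← hsq, Real.rpow_neg_one, div_eq_mul_inv _ (d : ℝ), div_eq_mul_inv c5]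
        ring
    _ ≤ _ := by
        apply mul_le_mul _ hSM (by positivity) (by positivity)
        apply mul_le_mul_of_nonneg_left _ (by positivity)
        exact mul_le_mul_of_nonneg_left hexp (by positivity)

end Pool.Agent.H17.GP174
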